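import Mathlib

open Module

namespace N26.GI

/-- The `k`-dimensional volume of the parallelepiped spanned by a `k`-frame of `ℝⁿ`
(square root of the Gram determinant). -/
noncomputable def vol {n k : ℕ} (v : Fin k → EuclideanSpace ℝ (Fin n)) : ℝ :=
  Real.sqrt (Matrix.of fun i j => inner ℝ (v i) (v j) : Matrix (Fin k) (Fin k) ℝ).det

/-- The frame `(I + tL) v`. -/
noncomputable def move {n k : ℕ} (L : Matrix (Fin n) (Fin n) ℝ) (t : ℝ)
    (v : Fin k → EuclideanSpace ℝ (Fin n)) : Fin k → EuclideanSpace ℝ (Fin n) :=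
  fun i => v i + t • Matrix.toEuclideanLin L (v i)

/-- `k`-integrands on `ℝⁿ`: positive functions of class `C¹` on the Grassmannian of
`k`-dimensional subspaces (class `C¹` as functions of a linearly independent `k`-frame). -/
structure IsIntegrand (n k : ℕ) (F : Submodule ℝ (EuclideanSpace ℝ (Fin n)) → ℝ) : Prop where
  pos : ∀ T : Submodule ℝ (EuclideanSpace ℝ (Fin n)), finrank ℝ T = k → 0 < F T
  contDiff : ContDiffOn ℝ 1
    (fun v : Fin k → EuclideanSpace ℝ (Fin n) => F (Submodule.span ℝ (Set.range v)))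
    {v | LinearIndependent ℝ v}

/-- The Gauss image `{B_F(T) / F(T)}`: with `T` spanned by the frame `v` and
`π_t = (I + tL)[T]`, the matrix `B_F(T)` is determined by
`trace (Bᵀ L) = d/dt|₀ F(π_t) J_t` for all `L`, where `J_t` is the `k`-Jacobian of
`I + tL` on `T`, i.e. the quotient of the volumes of the frames `(I + tL)v` and `v`. -/
def gaussImage (n k : ℕ) (F : Submodule ℝ (EuclideanSpace ℝ (Fin n)) → ℝ) :
    Set (Matrix (Fin n) (Fin n) ℝ) :=
  {B | ∃ v : Fin k → EuclideanSpace ℝ (Fin n), LinearIndependent ℝ v ∧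
    ∀ L : Matrix (Fin n) (Fin n) ℝ, (B.transpose * L).trace =
      deriv (fun t : ℝ => F (Submodule.span ℝ (Set.range (move L t v))) *
        (vol (move L t v) / vol v)) 0 / F (Submodule.span ℝ (Set.range v))}

/-- The atomic condition (convex-geometric form). -/
def AC (n k : ℕ) (F : Submodule ℝ (EuclideanSpace ℝ (Fin n)) → ℝ) : Prop :=
  convexHull ℝ (gaussImage n k F) ∩ {A | A.rank ≤ k} = gaussImage n k F ∧
  gaussImage n k F = (convexHull ℝ (gaussImage n k F)).extremePoints ℝ

/-- The exposed condition. -/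
def EC (n k : ℕ) (F : Submodule ℝ (EuclideanSpace ℝ (Fin n)) → ℝ) : Prop :=
  convexHull ℝ (gaussImage n k F) ∩ {A | A.rank ≤ k} = gaussImage n k F ∧
  gaussImage n k F = (convexHull ℝ (gaussImage n k F)).exposedPoints ℝ

/-- A `1`-integrand, extended to vectors by `f(x) = F(ℝx)|x|`, is strictly convex:
`f(x + y) < f(x) + f(y)` for linearly independent `x, y`. -/
def StrictlyConvex (n : ℕ) (F : Submodule ℝ (EuclideanSpace ℝ (Fin n)) → ℝ) : Prop :=
  ∀ x y : EuclideanSpace ℝ (Fin n), LinearIndependent ℝ ![x, y] →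
    F (Submodule.span ℝ {x + y}) * ‖x + y‖ <
      F (Submodule.span ℝ {x}) * ‖x‖ + F (Submodule.span ℝ {y}) * ‖y‖

end N26.GI
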