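import Mathlib

open Module

namespace N26.GI

variable {n : ℕ}

/-- abstract set-up: even positive one-homogeneous functions differentiable off the origin -/
structure Hom (f : EuclideanSpace ℝ (Fin n) → ℝ) : Prop where
  pos : ∀ x, x ≠ 0 → 0 < f x
  hom : ∀ (c : ℝ) x, f (c • x) = |c| * f x
  diff : ∀ x, x ≠ 0 → DifferentiableAt ℝ f x

variable {f : EuclideanSpace ℝ (Fin n) → ℝ}

lemma Hom.zero (h : Hom f) : f 0 = 0 := by
  have := h.hom 0 0
  simpa using this

lemma Hom.nonneg (h : Hom f) (x) : 0 ≤ f x := by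
  by_cases hx : x = 0
  · rw [hx, h.zero]
  · exact (h.pos x hx).le

lemma Hom.neg (h : Hom f) (x) : f (-x) = f x := by
  have := h.hom (-1) x
  simpa using this

lemma Hom.hasDeriv (h : Hom f) {x : EuclideanSpace ℝ (Fin n)} (hx : x ≠ 0)
    (y : EuclideanSpace ℝ (Fin n)) :
    HasDerivAt (fun t : ℝ => f (x + t • y)) (fderiv ℝ f x y) 0 := by
  have h1 : HasFDerivAt f (fderiv ℝ f x) (x + (0 : ℝ) • y) := by
    simpa using (h.diff x hx).hasFDerivAt
  have h2 : HasDerivAt (fun t : ℝ => x + t • y) y 0 := by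
    simpa using ((hasDerivAt_id (0 : ℝ)).smul_const y).const_add x
  simpa [Function.comp_def] using h1.comp_hasDerivAt (0 : ℝ) h2

lemma Hom.euler (h : Hom f) {x : EuclideanSpace ℝ (Fin n)} (hx : x ≠ 0) :
    fderiv ℝ f x x = f x := by
  have h1 := h.hasDeriv hx x
  have h2 : HasDerivAt (fun t : ℝ => (1 + t) * f x) (f x) 0 := by
    simpa using ((hasDerivAt_id (0 : ℝ)).const_add 1).mul_const (f x)
  have h3 : (fun t : ℝ => f (x + t • x)) =ᶠ[nhds 0] fun t : ℝ => (1 + t) * f x := by
    have : ∀ᶠ t : ℝ in nhds 0, -1 < t := lt_mem_nhds (by norm_num)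
    filter_upwards [this] with t ht
    have e : x + t • x = (1 + t) • x := by rw [add_smul, one_smul]
    rw [e, h.hom, abs_of_pos (by linarith)]
  exact h1.unique (h2.congr_of_eventuallyEq h3)

/-- a linear functional below `f` touching `f` at `x` is the differential of `f` at `x` -/
lemma Hom.touch (h : Hom f) {x : EuclideanSpace ℝ (Fin n)} (hx : x ≠ 0)
    (w : EuclideanSpace ℝ (Fin n) →L[ℝ] ℝ) (hw : ∀ y, w y ≤ f y) (hwx : w x = f x) :
    fderiv ℝ f x = w := by
  have hmin : IsLocalMin (fun y => f y - w y) x := by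
    refine Filter.Eventually.of_forall fun y => ?_
    simp only
    have := hw y
    rw [hwx]; linarith
  have hd : HasFDerivAt (fun y => f y - w y) (fderiv ℝ f x - w) x :=
    (h.diff x hx).hasFDerivAt.sub w.hasFDerivAt
  have := hmin.hasFDerivAt_eq_zero hd
  exact sub_eq_zero.mp this

lemma Hom.fderiv_smul (h : Hom f) {x : EuclideanSpace ℝ (Fin n)} (hx : x ≠ 0) {c : ℝ}
    (hc : c ≠ 0) (y : EuclideanSpace ℝ (Fin n)) :
    c * fderiv ℝ f (c • x) y = |c| * fderiv ℝ f x y := by
  have hcx : c • x ≠ 0 := smul_ne_zero hc hx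
  have h1 := h.hasDeriv hcx (c • y)
  have h2 := (h.hasDeriv hx y).const_mul |c|
  have h3 : (fun t : ℝ => f (c • x + t • c • y)) = fun t : ℝ => |c| * f (x + t • y) := by
    funext t
    rw [← h.hom]; congr 1
    rw [smul_add, smul_comm]
  rw [h3] at h1
  have := h1.unique h2
  rw [map_smul] at this
  simpa using this

/-- strict convexity in the abstract setting -/
def SC (f : EuclideanSpace ℝ (Fin n) → ℝ) : Prop :=
  ∀ x y : EuclideanSpace ℝ (Fin n), LinearIndependent ℝ ![x, y] → f (x + y) < f x + f y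

lemma Hom.fderiv_lt (h : Hom f) (hs : SC f) {x y : EuclideanSpace ℝ (Fin n)}
    (hxy : LinearIndependent ℝ ![x, y]) : fderiv ℝ f x y < f y := by
  have hx : x ≠ 0 := by
    have := hxy.ne_zero 0
    simpa using this
  have h1 : fderiv ℝ f x y ≤ f (x + y) - f x := by
    have hd := h.hasDeriv hx y
    rw [hasDerivAt_iff_tendsto_slope] at hd
    have hd' : Filter.Tendsto (slope (fun t : ℝ => f (x + t • y)) 0) (nhdsWithin 0 (Set.Ioo 0 1))
        (nhds (fderiv ℝ f x y)) := by
      refine hd.mono_left (nhdsWithin_mono _ ?_)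
      intro t ht
      exact ne_of_gt ht.1
    have hne : (nhdsWithin (0 : ℝ) (Set.Ioo 0 1)).NeBot := by
      apply left_nhdsWithin_Ioo_neBot; norm_num
    refine le_of_tendsto hd' ?_
    filter_upwards [self_mem_nhdsWithin] with t ht
    rw [slope_def_field]
    have ht0 : 0 < t := ht.1
    have ht1 : t < 1 := ht.2
    have hli : LinearIndependent ℝ ![(1 - t) • x, t • (x + y)] := by
      rw [LinearIndependent.pair_iff] at hxy ⊢
      intro a b hab
      have : (a * (1 - t) + b * t) • x + (b * t) • y = 0 := by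
        rw [← hab]; module
      obtain ⟨e1, e2⟩ := hxy _ _ this
      have hb : b = 0 := by
        rcases mul_eq_zero.mp e2 with h | h
        · exact h
        · exact absurd h ht0.ne'
      subst hb
      refine ⟨?_, rfl⟩
      have : a * (1 - t) = 0 := by simpa using e1
      rcases mul_eq_zero.mp this with h | h
      · exact h
      · exact absurd h (by linarith)
    have h2 := hs _ _ hli
    have e : (1 - t) • x + t • (x + y) = x + t • y := by module
    rw [e, h.hom, h.hom, abs_of_pos (by linarith : 0 < 1 - t), abs_of_pos ht0] at h2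
    rw [sub_zero, div_le_iff₀ ht0]
    simp only [zero_smul, add_zero]
    nlinarith
  have h2 := hs x y hxy
  linarith

lemma Hom.abs_fderiv_lt (h : Hom f) (hs : SC f) {x y : EuclideanSpace ℝ (Fin n)}
    (hxy : LinearIndependent ℝ ![x, y]) : |fderiv ℝ f x y| < f y := by
  rw [abs_lt]
  have hxy' : LinearIndependent ℝ ![x, -y] := by
    rw [LinearIndependent.pair_iff] at hxy ⊢
    intro a b hab
    have : a • x + (-b) • y = 0 := by rw [← hab]; module
    obtain ⟨e1, e2⟩ := hxy _ _ this
    exact ⟨e1, by linarith⟩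
  have h1 := h.fderiv_lt hs hxy
  have h2 := h.fderiv_lt hs hxy'
  rw [map_neg, h.neg] at h2
  exact ⟨by linarith, h1⟩

/-- existence of touching functionals, if every functional below `f` touches along one ray -/
lemma Hom.exists_touch (h : Hom f)
    (hT : ∀ w : EuclideanSpace ℝ (Fin n) →L[ℝ] ℝ, (∀ y, w y ≤ f y) →
      ∀ x y : EuclideanSpace ℝ (Fin n), ‖x‖ = 1 → ‖y‖ = 1 → w x = f x → w y = f y → x = y)
    {x : EuclideanSpace ℝ (Fin n)} (hx : x ≠ 0) :
    ∃ w : EuclideanSpace ℝ (Fin n) →L[ℝ] ℝ, (∀ y, w y ≤ f y) ∧ w x = f x := by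
  have hcont : ContinuousOn f {y | y ≠ 0} := fun y hy => (h.diff y hy).continuousAt.continuousWithinAt
  have hcS : ContinuousOn f (Metric.sphere (0 : EuclideanSpace ℝ (Fin n)) 1) := by
    refine hcont.mono ?_
    intro y hy
    have : ‖y‖ = 1 := by simpa using hy
    intro h0
    rw [h0, norm_zero] at this
    exact zero_ne_one this
  have hS : IsCompact (Metric.sphere (0 : EuclideanSpace ℝ (Fin n)) 1) := isCompact_sphere _ _
  obtain ⟨M, hM⟩ := hS.exists_bound_of_continuousOn hcS
  have hunit : ∀ y : EuclideanSpace ℝ (Fin n), y ≠ 0 →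
      ‖y‖⁻¹ • y ∈ Metric.sphere (0 : EuclideanSpace ℝ (Fin n)) 1 := by
    intro y hy
    rw [mem_sphere_zero_iff_norm, norm_smul, norm_inv, norm_norm, inv_mul_cancel₀ (norm_ne_zero_iff.mpr hy)]
  have hscale : ∀ (w : EuclideanSpace ℝ (Fin n) →L[ℝ] ℝ),
      (∀ s ∈ Metric.sphere (0 : EuclideanSpace ℝ (Fin n)) 1, w s ≤ f s) → ∀ y, w y ≤ f y := by
    intro w hw y
    by_cases hy : y = 0
    · rw [hy, map_zero, h.zero]
    · have h1 := hw _ (hunit y hy)
      rw [map_smul, h.hom, abs_of_pos (inv_pos.mpr (norm_pos_iff.mpr hy)), smul_eq_mul] at h1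
      exact le_of_mul_le_mul_left h1 (inv_pos.mpr (norm_pos_iff.mpr hy))
  have hM0 : 0 ≤ M := by
    have := hM _ (hunit x hx)
    exact (norm_nonneg _).trans this
  -- the compact set of functionals below `f`
  let K : Set (EuclideanSpace ℝ (Fin n) →L[ℝ] ℝ) := {w | ∀ y, w y ≤ f y}
  have hKc : IsClosed K := by
    have : K = ⋂ y, {w : EuclideanSpace ℝ (Fin n) →L[ℝ] ℝ | w y ≤ f y} := by
      ext w; simp [K]
    rw [this]
    refine isClosed_iInter fun y => ?_
    exact isClosed_le (ContinuousLinearMap.apply ℝ ℝ y).continuous continuous_const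
  have hKb : Bornology.IsBounded K := by
    rw [isBounded_iff_forall_norm_le]
    refine ⟨M, fun w hw => ?_⟩
    refine ContinuousLinearMap.opNorm_le_bound _ hM0 fun y => ?_
    by_cases hy : y = 0
    · simp [hy]
    · have h1 : ∀ z : EuclideanSpace ℝ (Fin n), z ≠ 0 → w z ≤ M * ‖z‖ := by
        intro z hz
        have h2 := hM _ (hunit z hz)
        rw [h.hom, abs_of_pos (inv_pos.mpr (norm_pos_iff.mpr hz)), Real.norm_of_nonneg
          (mul_nonneg (inv_nonneg.mpr (norm_nonneg _)) (h.nonneg z))] at h2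
        have h3 : f z ≤ M * ‖z‖ := by
          have hz' := norm_pos_iff.mpr hz
          rw [inv_mul_le_iff₀ hz'] at h2
          linarith [mul_comm M ‖z‖]
        exact (hw z).trans h3
      rw [Real.norm_eq_abs, abs_le]
      have h2 := h1 y hy
      have h3 := h1 (-y) (neg_ne_zero.mpr hy)
      rw [map_neg, norm_neg] at h3
      exact ⟨by linarith, h2⟩
  have hK : IsCompact K := Metric.isCompact_of_isClosed_isBounded hKc hKb
  have hKne : K.Nonempty := ⟨0, fun y => by simpa using h.nonneg y⟩
  obtain ⟨w, hwK, hwmax⟩ := hK.exists_isMaxOn hKne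
    ((ContinuousLinearMap.apply ℝ ℝ x).continuous.continuousOn)
  refine ⟨w, hwK, ?_⟩
  by_contra hne
  have hlt : w x < f x := lt_of_le_of_ne (hwK x) hne
  -- a functional positive at `x` and negative on the touching set
  obtain ⟨g, hgx, hgt⟩ : ∃ g : EuclideanSpace ℝ (Fin n) →L[ℝ] ℝ, 0 < g x ∧
      ∀ s, ‖s‖ = 1 → w s = f s → g s < 0 := by
    by_cases hex : ∃ u : EuclideanSpace ℝ (Fin n), ‖u‖ = 1 ∧ w u = f u
    · obtain ⟨u, hu1, hu⟩ := hex
      have hxu : ‖x‖⁻¹ • x ≠ u := by
        intro he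
        rw [← he, map_smul, h.hom, abs_of_pos (inv_pos.mpr (norm_pos_iff.mpr hx)), smul_eq_mul] at hu
        exact hlt.ne (mul_left_cancel₀ (inv_ne_zero (norm_ne_zero_iff.mpr hx)) hu)
      set x' := ‖x‖⁻¹ • x with hx'
      have hx'1 : ‖x'‖ = 1 := by simpa using hunit x hx
      have hin : inner ℝ x' u < 1 := by
        have := inner_lt_one_iff_real_of_norm_eq_one hx'1 hu1
        exact this.mpr hxu
      refine ⟨innerSL ℝ (x' - u), ?_, ?_⟩
      · have hxe : x = ‖x‖ • x' := by
          rw [hx', smul_smul, mul_inv_cancel₀ (norm_ne_zero_iff.mpr hx), one_smul]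
        rw [hxe, map_smul, innerSL_apply_apply, inner_sub_left, real_inner_self_eq_norm_sq, hx'1,
          real_inner_comm, smul_eq_mul]
        have := norm_pos_iff.mpr hx
        apply mul_pos this
        linarith
      · intro s hs1 hs
        have : s = u := hT w hwK s u hs1 hu1 hs hu
        rw [this, innerSL_apply_apply, inner_sub_left, real_inner_self_eq_norm_sq, hu1]
        linarith
    · refine ⟨innerSL ℝ x, ?_, ?_⟩
      · rw [innerSL_apply_apply, real_inner_self_eq_norm_sq]
        have := norm_pos_iff.mpr hx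
        positivity
      · intro s hs1 hs
        exact absurd ⟨s, hs1, hs⟩ hex
  -- the perturbation
  obtain ⟨ε, hε, hεf⟩ : ∃ ε : ℝ, 0 < ε ∧
      ∀ s ∈ Metric.sphere (0 : EuclideanSpace ℝ (Fin n)) 1, w s + ε * g s ≤ f s := by
    let C : Set (EuclideanSpace ℝ (Fin n)) :=
      Metric.sphere (0 : EuclideanSpace ℝ (Fin n)) 1 ∩ {s | 0 ≤ g s}
    have hC : IsCompact C := hS.inter_right (isClosed_le continuous_const g.continuous)
    by_cases hCe : C.Nonempty
    · obtain ⟨s0, hs0, hmin⟩ := hC.exists_isMinOn hCe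
        ((hcS.mono Set.inter_subset_left).sub w.continuous.continuousOn)
      have hδ : 0 < f s0 - w s0 := by
        have h1 : w s0 ≤ f s0 := hwK s0
        rcases h1.lt_or_eq with h2 | h2
        · linarith
        · have := hgt s0 (by simpa using hs0.1) h2
          exact absurd hs0.2 (not_le.mpr this)
      have hgn : 0 ≤ ‖g‖ := norm_nonneg _
      refine ⟨(f s0 - w s0) / (‖g‖ + 1), by positivity, fun s hs => ?_⟩
      have hs1 : ‖s‖ = 1 := by simpa using hs
      by_cases hgs : 0 ≤ g s
      · have h1 : f s0 - w s0 ≤ f s - w s := hmin ⟨hs, hgs⟩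
        have h2 : g s ≤ ‖g‖ + 1 := by
          have := g.le_opNorm s
          rw [hs1, mul_one, Real.norm_eq_abs] at this
          linarith [le_abs_self (g s)]
        have h3 : (f s0 - w s0) / (‖g‖ + 1) * g s ≤ f s0 - w s0 := by
          rw [div_mul_eq_mul_div, div_le_iff₀ (by positivity)]
          exact mul_le_mul_of_nonneg_left h2 hδ.le
        linarith
      · push Not at hgs
        have h1 : w s ≤ f s := hwK s
        have h2 : (f s0 - w s0) / (‖g‖ + 1) * g s ≤ 0 :=
          mul_nonpos_of_nonneg_of_nonpos (by positivity) hgs.le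
        linarith
    · refine ⟨1, one_pos, fun s hs => ?_⟩
      have hgs : g s < 0 := by
        by_contra hge
        push Not at hge
        exact hCe ⟨s, hs, hge⟩
      have h1 : w s ≤ f s := hwK s
      linarith
  have hw' : (w + ε • g) ∈ K := hscale _ (fun s hs => by simpa using hεf s hs)
  have := hwmax hw'
  simp only [ContinuousLinearMap.apply_apply, Set.mem_ofPred_eq, add_apply,
    smul_apply, smul_eq_mul] at this
  have h2 : 0 < ε * g x := mul_pos hε hgx
  linarith

end N26.GI
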