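import Mathlib
import Pool.Agent.N26.GI.Main

open Module

namespace N26.GI

variable {n : ℕ} {f : EuclideanSpace ℝ (Fin n) → ℝ}

noncomputable def aMat (f : EuclideanSpace ℝ (Fin n) → ℝ) (x : EuclideanSpace ℝ (Fin n)) :
    Matrix (Fin n) (Fin n) ℝ :=
  Matrix.of fun i j => fderiv ℝ f x (EuclideanSpace.single i 1) * x j / f x

lemma sum_single (w : EuclideanSpace ℝ (Fin n) →L[ℝ] ℝ) (y : EuclideanSpace ℝ (Fin n)) :
    ∑ i, y i * w (EuclideanSpace.single i 1) = w y := by
  have h : y = ∑ i, y i • (EuclideanSpace.single i (1 : ℝ) : EuclideanSpace ℝ (Fin n)) := by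
    ext j
    simp [Finset.sum_apply, Pi.single_apply]
  conv_rhs => rw [h]
  rw [map_sum]
  simp

lemma trace_mul (w : EuclideanSpace ℝ (Fin n) →L[ℝ] ℝ) (x : EuclideanSpace ℝ (Fin n))
    (L : Matrix (Fin n) (Fin n) ℝ) :
    ((Matrix.of fun i j => w (EuclideanSpace.single i 1) * x j : Matrix (Fin n) (Fin n) ℝ).transpose
      * L).trace = w (Matrix.toEuclideanLin L x) := by
  rw [← sum_single w (Matrix.toEuclideanLin L x)]
  simp only [Matrix.trace, Matrix.diag_apply, Matrix.mul_apply, Matrix.transpose_apply,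
    Matrix.of_apply, Matrix.toLpLin_apply, Matrix.mulVec, dotProduct]
  rw [Finset.sum_comm]
  refine Finset.sum_congr rfl fun i _ => ?_
  rw [Finset.sum_mul]
  refine Finset.sum_congr rfl fun j _ => ?_
  ring

lemma aMat_eq (x : EuclideanSpace ℝ (Fin n)) : aMat f x = (f x)⁻¹ •
    (Matrix.of fun i j => fderiv ℝ f x (EuclideanSpace.single i 1) * x j :
      Matrix (Fin n) (Fin n) ℝ) := by
  ext i j
  simp [aMat]
  ring

lemma aMat_trace (x : EuclideanSpace ℝ (Fin n)) (L : Matrix (Fin n) (Fin n) ℝ) :
    ((aMat f x).transpose * L).trace = fderiv ℝ f x (Matrix.toEuclideanLin L x) / f x := by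
  rw [aMat_eq, Matrix.transpose_smul, Matrix.smul_mul, Matrix.trace_smul, trace_mul]
  simp
  ring

/-- the test matrix -/
noncomputable def cMat (f : EuclideanSpace ℝ (Fin n) → ℝ) (z : EuclideanSpace ℝ (Fin n)) :
    Matrix (Fin n) (Fin n) ℝ :=
  Matrix.of fun i j => z i * fderiv ℝ f z (EuclideanSpace.single j 1)

lemma cMat_apply (z x : EuclideanSpace ℝ (Fin n)) :
    Matrix.toEuclideanLin (cMat f z) x = fderiv ℝ f z x • z := by
  ext i
  rw [← sum_single (fderiv ℝ f z) x]
  simp only [Matrix.toLpLin_apply, Matrix.mulVec, dotProduct, cMat, Matrix.of_apply,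
    PiLp.smul_apply, smul_eq_mul]
  rw [Finset.sum_mul]
  refine Finset.sum_congr rfl fun j _ => ?_
  ring

noncomputable def ell (C : Matrix (Fin n) (Fin n) ℝ) : Matrix (Fin n) (Fin n) ℝ →L[ℝ] ℝ :=
  LinearMap.toContinuousLinearMap
    { toFun := fun B => (B.transpose * C).trace
      map_add' := fun A B => by
        rw [Matrix.transpose_add, Matrix.add_mul, Matrix.trace_add]
      map_smul' := fun c B => by
        rw [Matrix.transpose_smul, Matrix.smul_mul, Matrix.trace_smul]; rfl }

@[simp] lemma ell_apply (C B : Matrix (Fin n) (Fin n) ℝ) : ell C B = (B.transpose * C).trace := rfl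

def gim (f : EuclideanSpace ℝ (Fin n) → ℝ) : Set (Matrix (Fin n) (Fin n) ℝ) :=
  {B | ∃ x, x ≠ 0 ∧ B = aMat f x}

lemma aMat_smul (h : Hom f) {x : EuclideanSpace ℝ (Fin n)} (hx : x ≠ 0) {c : ℝ} (hc : c ≠ 0) :
    aMat f (c • x) = aMat f x := by
  ext i j
  have h1 := h.fderiv_smul hx hc (EuclideanSpace.single i 1)
  have hf := h.pos x hx
  have hc' : 0 < |c| := abs_pos.mpr hc
  simp only [aMat, Matrix.of_apply, h.hom, PiLp.smul_apply, smul_eq_mul]
  rw [div_eq_div_iff (by positivity) (by positivity)]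
  calc fderiv ℝ f (c • x) (EuclideanSpace.single i 1) * (c * x.ofLp j) * f x
      = (c * fderiv ℝ f (c • x) (EuclideanSpace.single i 1)) * x.ofLp j * f x := by ring
    _ = _ := by rw [h1]; ring

lemma hull {G : Set (Matrix (Fin n) (Fin n) ℝ)} (l : Matrix (Fin n) (Fin n) ℝ →L[ℝ] ℝ) {m : ℝ}
    {B₀ : Matrix (Fin n) (Fin n) ℝ} (h0 : l B₀ = m) (hG : ∀ B ∈ G, l B < m ∨ B = B₀) :
    ∀ A ∈ convexHull ℝ G, l A < m ∨ A = B₀ := by
  have hsub : convexHull ℝ G ⊆ {A | l A < m ∨ A = B₀} := by
    refine convexHull_min (fun B hB => hG B hB) ?_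
    intro A hA B hB a b ha hb hab
    have hAm : l A ≤ m := by
      rcases hA with h | h
      · exact h.le
      · rw [h, h0]
    have hBm : l B ≤ m := by
      rcases hB with h | h
      · exact h.le
      · rw [h, h0]
    show l (a • A + b • B) < m ∨ a • A + b • B = B₀
    rw [map_add, map_smul, map_smul, smul_eq_mul, smul_eq_mul]
    rcases ha.eq_or_lt with ha0 | ha0
    · have hb1 : b = 1 := by linarith
      subst hb1
      rw [← ha0]
      rcases hB with h | h
      · left; simpa using h
      · right; rw [h]; simp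
    rcases hb.eq_or_lt with hb0 | hb0
    · have ha1 : a = 1 := by linarith
      subst ha1
      rw [← hb0]
      rcases hA with h | h
      · left; simpa using h
      · right; rw [h]; simp
    have hm : a * m + b * m = m := by rw [← add_mul, hab, one_mul]
    have hA1 : a * l A ≤ a * m := mul_le_mul_of_nonneg_left hAm ha
    have hB1 : b * l B ≤ b * m := mul_le_mul_of_nonneg_left hBm hb
    rcases hA with h | h
    · left
      have := mul_lt_mul_of_pos_left h ha0
      linarith
    · rcases hB with h' | h'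
      · left
        have := mul_lt_mul_of_pos_left h' hb0
        linarith
      · right; rw [h, h', ← add_smul, hab, one_smul]
  exact fun A hA => hsub hA

lemma ell_lt (h : Hom f) (hs : SC f) {z : EuclideanSpace ℝ (Fin n)} (hz : z ≠ 0) :
    ell (cMat f z) (aMat f z) = f z ∧
    ∀ B ∈ gim f, ell (cMat f z) B < f z ∨ B = aMat f z := by
  have hfz := h.pos z hz
  refine ⟨?_, ?_⟩
  · rw [ell_apply, aMat_trace, cMat_apply, h.euler hz, map_smul, h.euler hz, smul_eq_mul]
    field_simp
  · rintro B ⟨x, hx, rfl⟩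
    have hfx := h.pos x hx
    rw [ell_apply, aMat_trace, cMat_apply, map_smul, smul_eq_mul]
    by_cases hli : LinearIndependent ℝ ![x, z]
    · left
      have h1 := h.abs_fderiv_lt hs hli
      have hli' : LinearIndependent ℝ ![z, x] := by
        rw [LinearIndependent.pair_iff] at hli ⊢
        intro a b hab
        have := hli b a (by rw [← hab]; abel)
        exact ⟨this.2, this.1⟩
      have h2 := h.abs_fderiv_lt hs hli'
      rw [div_lt_iff₀ hfx]
      calc fderiv ℝ f z x * fderiv ℝ f x z ≤ |fderiv ℝ f z x * fderiv ℝ f x z| := le_abs_self _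
        _ = |fderiv ℝ f z x| * |fderiv ℝ f x z| := abs_mul _ _
        _ < f x * f z := by
          apply mul_lt_mul'' h2 h1 (abs_nonneg _) (abs_nonneg _)
        _ = f z * f x := mul_comm _ _
    · right
      rw [LinearIndependent.pair_iff' hx] at hli
      push Not at hli
      obtain ⟨c, hc⟩ := hli
      have hc0 : c ≠ 0 := by
        rintro rfl
        rw [zero_smul] at hc
        exact hz hc.symm
      rw [← hc, aMat_smul h hx hc0]

lemma trace_one (h : Hom f) : ∀ A ∈ convexHull ℝ (gim f), A.trace = 1 := by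
  have hsub : convexHull ℝ (gim f) ⊆ {A | A.trace = 1} := by
    refine convexHull_min ?_ ?_
    · rintro B ⟨x, hx, rfl⟩
      show (aMat f x).trace = 1
      have := aMat_trace (f := f) x 1
      rw [Matrix.mul_one, Matrix.trace_transpose] at this
      rw [this]
      have h1 : Matrix.toEuclideanLin (1 : Matrix (Fin n) (Fin n) ℝ) x = x := by
        simp
      rw [h1, h.euler hx, div_self (h.pos x hx).ne']
    · intro A hA B hB a b ha hb hab
      show (a • A + b • B).trace = 1
      rw [Matrix.trace_add, Matrix.trace_smul, Matrix.trace_smul, hA, hB]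
      simpa using hab
  exact fun A hA => hsub hA

lemma rank_aMat (x : EuclideanSpace ℝ (Fin n)) : (aMat f x).rank ≤ 1 := by
  have : aMat f x = Matrix.vecMulVec (fun i => fderiv ℝ f x (EuclideanSpace.single i 1) / f x)
      (fun j => x j) := by
    ext i j
    simp [aMat, Matrix.vecMulVec_apply]
    ring
  rw [this]
  exact Matrix.rank_vecMulVec_le _ _

lemma exists_of_rank_le_one {A : Matrix (Fin n) (Fin n) ℝ} (hA : A.rank ≤ 1) :
    ∃ (v c : Fin n → ℝ), ∀ i j, A i j = v i * c j := by
  rw [Matrix.rank, finrank_le_one_iff] at hA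
  obtain ⟨v, hv⟩ := hA
  have hmem : ∀ j, A.mulVecLin (Pi.single j 1) ∈ LinearMap.range A.mulVecLin := fun j => ⟨_, rfl⟩
  choose c hc using fun j => hv ⟨_, hmem j⟩
  refine ⟨v.1, c, fun i j => ?_⟩
  have h1 := congrArg (fun w => (w : Fin n → ℝ) i) (congrArg Subtype.val (hc j))
  simp at h1
  rw [← h1, mul_comm]

theorem sc_imp (h : Hom f) (hs : SC f) :
    convexHull ℝ (gim f) ∩ {A | A.rank ≤ 1} = gim f ∧
    gim f = (convexHull ℝ (gim f)).exposedPoints ℝ := by
  refine ⟨?_, ?_⟩
  · apply Set.Subset.antisymm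
    · rintro A ⟨hA, hr⟩
      obtain ⟨v, c, hvc⟩ := exists_of_rank_le_one hr
      have htr := trace_one h A hA
      have hsum : ∑ i, v i * c i = 1 := by
        rw [← htr]
        simp [Matrix.trace, hvc]
      set z : EuclideanSpace ℝ (Fin n) := WithLp.toLp 2 c with hzdef
      have hz : z ≠ 0 := by
        intro hz0
        have : ∀ i, c i = 0 := fun i => by
          have := congrArg (fun w : EuclideanSpace ℝ (Fin n) => w i) hz0
          simpa [hzdef] using this
        simp [this] at hsum
      obtain ⟨e0, e1⟩ := ell_lt h hs hz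
      have h1 : ell (cMat f z) A = f z := by
        rw [ell_apply]
        have : (A.transpose * cMat f z).trace = (∑ i, v i * c i) * fderiv ℝ f z z := by
          rw [← sum_single (fderiv ℝ f z) z, Finset.sum_mul_sum]
          simp only [Matrix.trace, Matrix.diag_apply, Matrix.mul_apply, Matrix.transpose_apply,
            cMat, Matrix.of_apply, hvc]
          rw [Finset.sum_comm]
          refine Finset.sum_congr rfl fun i _ => Finset.sum_congr rfl fun j _ => ?_
          simp [hzdef]
          ring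
        rw [this, hsum, one_mul, h.euler hz]
      rcases hull _ e0 e1 A hA with h2 | h2
      · exact absurd h1 h2.ne
      · exact ⟨z, hz, h2⟩
    · rintro B hB
      refine ⟨subset_convexHull ℝ _ hB, ?_⟩
      obtain ⟨x, hx, rfl⟩ := hB
      exact rank_aMat x
  · apply Set.Subset.antisymm
    · rintro B hB
      obtain ⟨x, hx, rfl⟩ := hB
      refine ⟨subset_convexHull ℝ _ ⟨x, hx, rfl⟩, ell (cMat f x), fun A hA => ?_⟩
      obtain ⟨e0, e1⟩ := ell_lt h hs hx
      rcases hull _ e0 e1 A hA with h2 | h2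
      · rw [e0]
        exact ⟨h2.le, fun h3 => absurd h2 (not_lt.mpr h3)⟩
      · rw [h2]
        exact ⟨le_rfl, fun _ => rfl⟩
    · exact exposedPoints_subset_extremePoints.trans extremePoints_convexHull_subset

theorem ac_imp (h : Hom f)
    (h1 : convexHull ℝ (gim f) ∩ {A | A.rank ≤ 1} = gim f)
    (h2 : gim f = (convexHull ℝ (gim f)).extremePoints ℝ) : SC f := by
  have hT : ∀ w : EuclideanSpace ℝ (Fin n) →L[ℝ] ℝ, (∀ y, w y ≤ f y) →
      ∀ x y : EuclideanSpace ℝ (Fin n), x ≠ 0 → y ≠ 0 → w x = f x → w y = f y →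
        (f x)⁻¹ • x = (f y)⁻¹ • y := by
    intro w hw x y hx hy hwx hwy
    have hfx := h.pos x hx
    have hfy := h.pos y hy
    have ex := h.touch hx w hw hwx
    have ey := h.touch hy w hw hwy
    have hmx : aMat f x ∈ gim f := ⟨x, hx, rfl⟩
    have hmy : aMat f y ∈ gim f := ⟨y, hy, rfl⟩
    have hmid : (1 / 2 : ℝ) • aMat f x + (1 / 2 : ℝ) • aMat f y ∈ gim f := by
      rw [← h1]
      refine ⟨?_, ?_⟩
      · exact (convex_convexHull ℝ _) (subset_convexHull ℝ _ hmx) (subset_convexHull ℝ _ hmy)
          (by norm_num) (by norm_num) (by norm_num)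
      · have : (1 / 2 : ℝ) • aMat f x + (1 / 2 : ℝ) • aMat f y =
            Matrix.vecMulVec (fun i => w (EuclideanSpace.single i 1))
              (fun j => (1 / 2 : ℝ) * (x j / f x + y j / f y)) := by
          ext i j
          simp [aMat, Matrix.vecMulVec_apply, ex, ey]
          ring
        show Matrix.rank _ ≤ 1
        rw [this]
        exact Matrix.rank_vecMulVec_le _ _
    rw [h2] at hmid
    have hseg : (1 / 2 : ℝ) • aMat f x + (1 / 2 : ℝ) • aMat f y ∈
        openSegment ℝ (aMat f x) (aMat f y) :=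
      ⟨1 / 2, 1 / 2, by norm_num, by norm_num, by norm_num, rfl⟩
    have he := hmid.2 (subset_convexHull ℝ _ hmx) (subset_convexHull ℝ _ hmy) hseg
    have he' : aMat f x = aMat f y := by
      have e1 : aMat f x = (1 / 2 : ℝ) • aMat f x + (1 / 2 : ℝ) • aMat f y := he
      have e2 : (1 / 2 : ℝ) • aMat f x = (1 / 2 : ℝ) • aMat f y := by
        have e3 : aMat f x = (1 / 2 : ℝ) • aMat f x + (1 / 2 : ℝ) • aMat f x := by
          rw [← add_smul]; norm_num
        have e4 := e3.symm.trans e1
        exact add_left_cancel e4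
      exact smul_right_injective _ (by norm_num : (1 / 2 : ℝ) ≠ 0) e2
    -- some `w (e i) ≠ 0`
    obtain ⟨i, hi⟩ : ∃ i, w (EuclideanSpace.single i 1) ≠ 0 := by
      by_contra hcon
      push Not at hcon
      have := sum_single w x
      simp only [hcon, mul_zero, Finset.sum_const_zero] at this
      rw [hwx] at this
      exact hfx.ne this
    ext j
    have h3 := congrFun (congrFun he' i) j
    simp only [aMat, Matrix.of_apply, ex, ey] at h3
    have h4 : w (EuclideanSpace.single i 1) * (x.ofLp j / f x) =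
        w (EuclideanSpace.single i 1) * (y.ofLp j / f y) := by
      rw [← mul_div_assoc, ← mul_div_assoc]; exact h3
    have h5 := mul_left_cancel₀ hi h4
    simp only [PiLp.smul_apply, smul_eq_mul]
    rw [inv_mul_eq_div, inv_mul_eq_div]
    exact h5
  have hT' : ∀ w : EuclideanSpace ℝ (Fin n) →L[ℝ] ℝ, (∀ y, w y ≤ f y) →
      ∀ x y : EuclideanSpace ℝ (Fin n), ‖x‖ = 1 → ‖y‖ = 1 → w x = f x → w y = f y → x = y := by
    intro w hw x y hx1 hy1 hwx hwy
    have hx : x ≠ 0 := by rintro rfl; simp at hx1
    have hy : y ≠ 0 := by rintro rfl; simp at hy1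
    have he := hT w hw x y hx hy hwx hwy
    have hfx := h.pos x hx
    have hfy := h.pos y hy
    have hn := congrArg norm he
    rw [norm_smul, norm_smul, hx1, hy1, mul_one, mul_one, Real.norm_of_nonneg (by positivity),
      Real.norm_of_nonneg (by positivity)] at hn
    rw [hn] at he
    exact smul_right_injective _ (inv_ne_zero hfy.ne') he
  intro x y hxy
  have hx : x ≠ 0 := by simpa using hxy.ne_zero 0
  have hy : y ≠ 0 := by simpa using hxy.ne_zero 1
  have hs : x + y ≠ 0 := by
    intro h0
    rw [LinearIndependent.pair_iff] at hxy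
    have := hxy 1 1 (by simpa using h0)
    exact one_ne_zero this.1
  obtain ⟨w, hw, hwe⟩ := h.exists_touch hT' hs
  rw [← hwe, map_add]
  rcases (hw x).lt_or_eq with h3 | h3
  · have := hw y; linarith
  rcases (hw y).lt_or_eq with h4 | h4
  · linarith
  exfalso
  have he := hT w hw x y hx hy h3 h4
  rw [LinearIndependent.pair_iff] at hxy
  have := hxy (f x)⁻¹ (-(f y)⁻¹) (by rw [he, neg_smul]; abel)
  exact inv_ne_zero (h.pos x hx).ne' this.1

end N26.GI
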