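import Mathlib
import Pool.Agent.N26.GI.Defs
import Pool.Agent.N26.GI.Mat

open Module

namespace N26.GI

variable {n : ℕ}

/-- extension of `F` to vectors -/
noncomputable def ext (F : Submodule ℝ (EuclideanSpace ℝ (Fin n)) → ℝ)
    (x : EuclideanSpace ℝ (Fin n)) : ℝ := F (Submodule.span ℝ {x}) * ‖x‖

lemma vol_one (v : Fin 1 → EuclideanSpace ℝ (Fin n)) : vol v = ‖v 0‖ := by
  rw [vol, Matrix.det_fin_one, Matrix.of_apply, real_inner_self_eq_norm_sq,
    Real.sqrt_sq (norm_nonneg _)]

lemma range_one (v : Fin 1 → EuclideanSpace ℝ (Fin n)) : Set.range v = {v 0} := by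
  ext y
  constructor
  · rintro ⟨i, rfl⟩
    rw [Subsingleton.elim i 0]; rfl
  · intro hy
    exact ⟨0, hy.symm⟩

lemma hom_ext {F : Submodule ℝ (EuclideanSpace ℝ (Fin n)) → ℝ} (hF : IsIntegrand n 1 F) :
    Hom (ext F) := by
  refine ⟨?_, ?_, ?_⟩
  · intro x hx
    exact mul_pos (hF.pos _ (finrank_span_singleton hx)) (norm_pos_iff.mpr hx)
  · intro c x
    by_cases hc : c = 0
    · subst hc
      simp [ext]
    · have : Submodule.span ℝ {c • x} = Submodule.span ℝ {x} :=
        Submodule.span_singleton_smul_eq (IsUnit.mk0 c hc) x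
      rw [ext, ext, this, norm_smul, Real.norm_eq_abs]
      ring
  · intro x hx
    have h1 : ContDiffOn ℝ 1 (fun y : EuclideanSpace ℝ (Fin n) =>
        F (Submodule.span ℝ (Set.range (fun _ : Fin 1 => y)))) {y | y ≠ 0} := by
      have hc : ContDiff ℝ 1 (fun y : EuclideanSpace ℝ (Fin n) => (fun _ : Fin 1 => y)) :=
        contDiff_pi.mpr fun _ => contDiff_id
      refine hF.contDiff.comp hc.contDiffOn ?_
      intro y hy
      show LinearIndependent ℝ _
      exact linearIndependent_unique_iff.mpr hy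
    have h2 : (fun y : EuclideanSpace ℝ (Fin n) =>
        F (Submodule.span ℝ (Set.range (fun _ : Fin 1 => y)))) = fun y => F (Submodule.span ℝ {y}) := by
      funext y
      rw [range_one]
    rw [h2] at h1
    have ho : IsOpen {y : EuclideanSpace ℝ (Fin n) | y ≠ 0} := isOpen_ne
    have h3 : DifferentiableAt ℝ (fun y => F (Submodule.span ℝ {y})) x :=
      ((h1 x hx).contDiffAt (ho.mem_nhds hx)).differentiableAt (by norm_num)
    exact h3.mul (differentiableAt_id.norm ℝ hx)

lemma gaussImage_eq {F : Submodule ℝ (EuclideanSpace ℝ (Fin n)) → ℝ} (hF : IsIntegrand n 1 F) :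
    gaussImage n 1 F = gim (ext F) := by
  have h := hom_ext hF
  have key : ∀ (v : Fin 1 → EuclideanSpace ℝ (Fin n)), v 0 ≠ 0 →
      ∀ L : Matrix (Fin n) (Fin n) ℝ,
      deriv (fun t : ℝ => F (Submodule.span ℝ (Set.range (move L t v))) *
        (vol (move L t v) / vol v)) 0 / F (Submodule.span ℝ (Set.range v)) =
      ((aMat (ext F) (v 0)).transpose * L).trace := by
    intro v hv L
    have hn : ‖v 0‖ ≠ 0 := norm_ne_zero_iff.mpr hv
    have e1 : (fun t : ℝ => F (Submodule.span ℝ (Set.range (move L t v))) *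
        (vol (move L t v) / vol v)) =
        fun t : ℝ => ext F (v 0 + t • Matrix.toEuclideanLin L (v 0)) / ‖v 0‖ := by
      funext t
      rw [range_one, vol_one, vol_one, ext, move]
      ring
    have hd := ((h.hasDeriv hv (Matrix.toEuclideanLin L (v 0))).div_const ‖v 0‖).deriv
    rw [e1, hd, aMat_trace, range_one, ext, div_div, mul_comm ‖v 0‖]
  ext B
  constructor
  · rintro ⟨v, hv, hB⟩
    have hv0 : v 0 ≠ 0 := hv.ne_zero 0
    refine ⟨v 0, hv0, ?_⟩
    have h1 : B.transpose = (aMat (ext F) (v 0)).transpose := by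
      rw [Matrix.ext_iff_trace_mul_right]
      intro L
      rw [hB L, key v hv0 L]
    exact Matrix.transpose_injective h1
  · rintro ⟨x, hx, rfl⟩
    refine ⟨fun _ => x, linearIndependent_unique_iff.mpr hx, fun L => ?_⟩
    rw [key _ hx L]

theorem main (F : Submodule ℝ (EuclideanSpace ℝ (Fin n)) → ℝ) (hF : IsIntegrand n 1 F) :
    (AC n 1 F ↔ EC n 1 F) ∧ (AC n 1 F ↔ StrictlyConvex n F) := by
  have h := hom_ext hF
  have hEA : EC n 1 F → AC n 1 F := by
    rintro ⟨h1, h2⟩
    refine ⟨h1, Set.Subset.antisymm ?_ extremePoints_convexHull_subset⟩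
    intro B hB
    rw [h2] at hB
    exact exposedPoints_subset_extremePoints hB
  have hAS : AC n 1 F → StrictlyConvex n F := by
    rintro ⟨h1, h2⟩
    rw [gaussImage_eq hF] at h1 h2
    exact ac_imp h h1 h2
  have hSE : StrictlyConvex n F → EC n 1 F := by
    intro hs
    have := sc_imp h (show SC (ext F) from hs)
    rw [EC, gaussImage_eq hF]
    exact this
  exact ⟨⟨fun ha => hSE (hAS ha), hEA⟩, ⟨hAS, fun hs => hEA (hSE hs)⟩⟩

end N26.GI
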